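import Pool.Agent.W528.HB.All
import Pool.Agent.W528.HF.Op
import Pool.Agent.W924.HC.PR

/-!
# Cyclic coverings of projective space along arbitrary hyperplane arrangements

The theorem `Pool.Agent.W528.HB.noRoot` of the starting library (one character of the covering group)
is applied to all characters, and to representations of a Galois group.
-/

set_option autoImplicit false

namespace Pool.Agent.TH366.HC

open Finset Polynomial Pool.Agent.W528.HA Pool.Agent.W528.HB

/-- The number of the points `(x, y)` of `L ^ n × L` with `y ^ N = ∏ l_i(x) ^ (a_i)`, the `l_i` being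
linear forms. -/
noncomputable def conePoints (L : Type) [Field L] (N n : ℕ) {ι : Type} [Fintype ι]
    (l : ι → Fin n → L) (a : ι → ℕ) : ℕ :=
  Set.ncard {v : (Fin n → L) × L | v.2 ^ N = ∏ i, (∑ k, l i k * v.1 k) ^ a i}

/-- The traces of the powers of `Φ` are given by the Grothendieck-Lefschetz formula for the part of
the cohomology of the covering `y ^ N = ∏ l_i ^ (a_i)` belonging to the `χ`-th power of the
character `z ↦ μ` of the `N`-th roots of unity. -/
def CoverTrace (κ : Type) [Field κ] [Fintype κ] {ι : Type} [Fintype ι] (N d : ℕ)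
    (l : ι → Fin (2 * d + 1) → κ) (a : ι → ℕ) (z : κ) {E W : Type} [Field E] [AddCommGroup W]
    [Module E W] (μ : E) (χ : ℕ) (Φ : Module.End E W) : Prop :=
  ∀ (L : Type) [Field L] [Fintype L] [Algebra κ L],
    ((Fintype.card L : E) - 1) * LinearMap.trace E W (Φ ^ Module.finrank κ L)
      = kummerSum L E N (2 * d + 1) (fun i k => algebraMap κ L (l i k))
          (fun i => χ * a i % N) (algebraMap κ L z) μ

lemma mod_ne {N a j : ℕ} (ha : a.Coprime N) (hj0 : 0 < j) (hj : j < N) : j * a % N ≠ 0 := by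
  intro h
  have h1 : N ∣ j * a := Nat.dvd_of_mod_eq_zero h
  have h2 : N ∣ j := (Nat.Coprime.symm ha).dvd_of_dvd_mul_right h1
  exact absurd (Nat.le_of_dvd hj0 h2) (by omega)

/-- Exponents may be reduced modulo `N`. -/
lemma reduce {L : Type} [Field L] [Fintype L] {N : ℕ} (hN : 2 ≤ N) {z : L}
    (hz : IsPrimitiveRoot z N) {ι : Type} [Fintype ι] (u : ι → L) (a : ι → ℕ)
    (ha : ∀ i, (a i).Coprime N) {j : ℕ} (hj0 : 0 < j) (hj : j < N) :
    (∏ i, u i ^ (j * a i % N)) ^ ((Fintype.card L - 1) / N)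
      = ((∏ i, u i ^ a i) ^ (1 * j)) ^ ((Fintype.card L - 1) / N) := by
  classical
  have hd := Pool.Agent.W528.HB.dvd_card_of_root hz (by omega)
  by_cases h : ∃ i, u i = 0
  · obtain ⟨i, hi⟩ := h
    have ha0 : a i ≠ 0 := by
      intro h0
      have h1 := ha i
      rw [h0, Nat.coprime_zero_left] at h1
      omega
    rw [Finset.prod_eq_zero (mem_univ i) (by rw [hi, zero_pow (mod_ne (ha i) hj0 hj)]),
      Finset.prod_eq_zero (mem_univ i) (by rw [hi, zero_pow ha0]), one_mul, zero_pow hj0.ne']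
  · push Not at h
    have h1 : ∀ i, u i ^ (j * a i) = u i ^ (j * a i % N) * (u i ^ (j * a i / N)) ^ N := by
      intro i
      rw [← pow_mul, ← pow_add, mul_comm (j * a i / N) N, Nat.mod_add_div]
    have h2 : (∏ i, u i ^ a i) ^ (1 * j)
        = (∏ i, u i ^ (j * a i % N)) * (∏ i, u i ^ (j * a i / N)) ^ N := by
      rw [one_mul, ← Finset.prod_pow, ← Finset.prod_pow, ← Finset.prod_mul_distrib]
      refine Finset.prod_congr rfl fun i _ => ?_
      rw [← h1 i, ← pow_mul, mul_comm (a i) j]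
    have h3 : (∏ i, u i ^ (j * a i / N)) ≠ 0 :=
      Finset.prod_ne_zero_iff.2 fun i _ => pow_ne_zero _ (h i)
    rw [h2, mul_pow, ← pow_mul _ N, Nat.mul_div_cancel' hd, FiniteField.pow_card_sub_one_eq_one _ h3,
      mul_one]

/-- The sum over all characters gives the number of points. -/
theorem cone_eq (L : Type) [Field L] [Fintype L] {N : ℕ} (hN : 2 ≤ N) (n : ℕ) {ι : Type} [Fintype ι]
    (l : ι → Fin n → L) (a : ι → ℕ) (ha : ∀ i, (a i).Coprime N) {z : L}
    (hz : IsPrimitiveRoot z N) {E : Type} [Field E] [CharZero E] {μ : E}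
    (hμ : IsPrimitiveRoot μ N) :
    ∑ χ ∈ Ico 1 N, kummerSum L E N n l (fun i => χ * a i % N) z μ
      = (conePoints L N n l a : E) - (Fintype.card L : E) ^ n := by
  classical
  have hPR := Pool.Agent.W924.HC.PR.main L N N 1 z (by rw [mul_one]) hz (by omega) one_pos E μ hμ
  have h1 : (conePoints L N n l a : E)
      = ∑ x : Fin n → L, ((Set.ncard {y : L | y ^ N = ∏ i, (∑ k, l i k * x k) ^ a i} : ℕ) : E) := by
    unfold conePoints
    rw [← Nat.cast_sum]
    congr 1
    rw [← Nat.card_coe_set_eq]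
    have e : ({v : (Fin n → L) × L | v.2 ^ N = ∏ i, (∑ k, l i k * v.1 k) ^ a i} : Set _)
        ≃ (Σ x : Fin n → L, {y : L | y ^ N = ∏ i, (∑ k, l i k * x k) ^ a i}) :=
      { toFun := fun v => ⟨v.1.1, ⟨v.1.2, v.2⟩⟩
        invFun := fun w => ⟨(w.1, w.2.1), w.2.2⟩
        left_inv := fun v => rfl
        right_inv := fun w => rfl }
    rw [Nat.card_congr e, Nat.card_sigma]
    rfl
  have h2 : ∀ x : Fin n → L, ((Set.ncard {y : L | y ^ N = ∏ i, (∑ k, l i k * x k) ^ a i} : ℕ) : E)
      = 1 + ∑ j ∈ Ico 1 N, kv N z μ ((∏ i, (∑ k, l i k * x k) ^ (j * a i % N))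
          ^ ((Fintype.card L - 1) / N)) := by
    intro x
    rw [hPR]
    congr 1
    refine sum_congr rfl fun j hj => ?_
    rw [mem_Ico] at hj
    rw [reduce hN hz (fun i => ∑ k, l i k * x k) a ha (by omega) hj.2]
  rw [h1, sum_congr rfl fun x _ => h2 x, sum_add_distrib, sum_comm]
  have h3 : ∑ _x : Fin n → L, (1 : E) = (Fintype.card L : E) ^ n := by
    rw [sum_const, nsmul_eq_mul, mul_one, card_univ, Fintype.card_fun, Fintype.card_fin]
    push_cast
    ring
  rw [h3, add_sub_cancel_left]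
  rfl

/-- One character: no eigenvalue is `q ^ d` times a root of unity. -/
theorem no_tate {c : ℕ} [Fact c.Prime] {N : ℕ} (hN : 2 ≤ N)
    (κ : Type) [Field κ] [Fintype κ] [CharP κ c] {f : ℕ} (hf : Fintype.card κ = c ^ f)
    {ι : Type} [Fintype ι] (d : ℕ)
    (l : ι → Fin (2 * d + 1) → κ) (a : ι → ℕ) {χ j : ℕ} (hj : j.Coprime N)
    (hjd : ∑ i, ∑ s ∈ range f, (j * χ * a i * c ^ s) % N < f * N * (d + 1))
    {z : κ} (hz : IsPrimitiveRoot z N) {E W : Type} [Field E] [CharZero E] [IsAlgClosed E]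
    [AddCommGroup W] [Module E W] [FiniteDimensional E W] {μ : E} (hμ : IsPrimitiveRoot μ N)
    (Φ : Module.End E W) (hΦ : CoverTrace κ N d l a z μ χ Φ) (M : ℕ) (hM : 0 < M) (w : W)
    (hw : (Φ ^ M) w = ((Fintype.card κ : E) ^ d) ^ M • w) : w = 0 := by
  have hq : (Fintype.card κ : E) ≠ 0 := by exact_mod_cast Fintype.card_ne_zero
  have hqd : (Fintype.card κ : E) ^ d ≠ 0 := pow_ne_zero _ hq
  set A : Module.End E W := ((Fintype.card κ : E) ^ d)⁻¹ • Φ with hA
  refine noRoot hN κ hf d l (fun i => χ * a i % N) (fun i => Nat.mod_lt _ (by omega)) hj ?_ hz hμ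
    A ?_ M hM w ?_
  · refine lt_of_le_of_lt (le_of_eq ?_) hjd
    refine sum_congr rfl fun i _ => sum_congr rfl fun s _ => ?_
    have h1 : χ * a i % N ≡ χ * a i [MOD N] := Nat.mod_modEq _ _
    have h2 := (h1.mul_left j).mul_right (c ^ s)
    rw [← mul_assoc] at h2
    exact h2
  · intro L _ _ _
    have hcard : (Fintype.card L : E) = (Fintype.card κ : E) ^ Module.finrank κ L := by
      rw [Module.card_eq_pow_finrank (K := κ) (V := L)]
      push_cast
      rfl
    have hLd : (Fintype.card L : E) ^ d * (((Fintype.card κ : E) ^ d)⁻¹) ^ Module.finrank κ L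
        = 1 := by
      rw [hcard, inv_pow, ← pow_mul, ← pow_mul, mul_comm d, mul_inv_cancel₀ (pow_ne_zero _ hq)]
    rw [← hΦ L, hA, _root_.smul_pow, map_smul, smul_eq_mul]
    linear_combination ((Fintype.card L : E) - 1)
      * LinearMap.trace E W (Φ ^ Module.finrank κ L) * hLd
  · rw [hA, _root_.smul_pow, LinearMap.smul_apply, hw, smul_smul, ← mul_pow, inv_mul_cancel₀ hqd, one_pow,
      one_smul]

end Pool.Agent.TH366.HC
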