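import Pool.Agent.TH366.HC.Main

/-!
# The representation of the Galois group on the cohomology of the covering
-/

set_option autoImplicit false

namespace Pool.Agent.TH366.HC

open Finset Polynomial Pool.Agent.W528.HA Pool.Agent.W528.HB

/-- The traces of the powers of `φ` on the whole space. -/
theorem trace_total {N : ℕ} (hN : 2 ≤ N) (κ : Type) [Field κ] [Fintype κ] {z : κ}
    (hz : IsPrimitiveRoot z N) {E : Type} [Field E] [CharZero E] {μ : E}
    (hμ : IsPrimitiveRoot μ N) {ι : Type} [Fintype ι] (d : ℕ)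
    (l : ι → Fin (2 * d + 1) → κ) (a : ι → ℕ) (ha : ∀ i, (a i).Coprime N)
    {V : Type} [AddCommGroup V] [Module E V] [FiniteDimensional E V]
    (Φ : Module.End E V) (W : Fin (N - 1) → Submodule E V) (hW : DirectSum.IsInternal W)
    (hstab : ∀ χ, ∀ v ∈ W χ, Φ v ∈ W χ)
    (hΦ : ∀ χ : Fin (N - 1), CoverTrace κ N d l a z μ (χ + 1) (Φ.restrict (hstab χ)))
    (L : Type) [Field L] [Fintype L] [Algebra κ L] :
    ((Fintype.card L : E) - 1) * LinearMap.trace E V (Φ ^ Module.finrank κ L)
      = (conePoints L N (2 * d + 1) (fun i k => algebraMap κ L (l i k)) a : E)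
        - (Fintype.card L : E) ^ (2 * d + 1) := by
  classical
  have hzL : IsPrimitiveRoot (algebraMap κ L z) N := hz.map_of_injective (algebraMap κ L).injective
  rw [← cone_eq L hN (2 * d + 1) (fun i k => algebraMap κ L (l i k)) a ha hzL hμ]
  have hmaps : ∀ χ, Set.MapsTo (Φ ^ Module.finrank κ L) (W χ) (W χ) := by
    intro χ
    have : ∀ k : ℕ, Set.MapsTo (Φ ^ k) (W χ) (W χ) := by
      intro k
      induction k with
      | zero => intro v hv; simpa using hv
      | succ k ih =>
        intro v hv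
        rw [pow_succ, Module.End.mul_apply]
        exact ih (hstab χ v hv)
    exact this _
  rw [LinearMap.trace_eq_sum_trace_restrict hW hmaps, mul_sum]
  have h1 : ∀ χ : Fin (N - 1),
      ((Fintype.card L : E) - 1)
          * LinearMap.trace E (W χ) ((Φ ^ Module.finrank κ L).restrict (hmaps χ))
        = kummerSum L E N (2 * d + 1) (fun i k => algebraMap κ L (l i k))
          (fun i => (χ + 1 : ℕ) * a i % N) (algebraMap κ L z) μ := by
    intro χ
    rw [← hΦ χ L]
    congr 2
    have : ∀ (k : ℕ) (hk : Set.MapsTo (Φ ^ k) (W χ) (W χ)),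
        (Φ ^ k).restrict hk = (Φ.restrict (hstab χ)) ^ k := by
      intro k hk
      ext v
      have h2 : ∀ (k : ℕ) (v : W χ),
          (((Φ.restrict (hstab χ)) ^ k) v : V) = (Φ ^ k) (v : V) := by
        intro k
        induction k with
        | zero => intro v; rfl
        | succ k ih =>
          intro v
          rw [pow_succ, Module.End.mul_apply, ih, pow_succ, Module.End.mul_apply]
          rfl
      rw [h2]
      rfl
    exact this _ _
  rw [sum_congr rfl fun χ _ => h1 χ, Finset.sum_Ico_eq_sum_range,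
    ← Fin.sum_univ_eq_sum_range (fun χ => kummerSum L E N (2 * d + 1)
      (fun i k => algebraMap κ L (l i k)) (fun i => (1 + χ) * a i % N) (algebraMap κ L z) μ)]
  refine sum_congr rfl fun χ _ => ?_
  rw [add_comm (χ : ℕ) 1]

theorem rep {N c d f : ℕ} (hN : 2 ≤ N) [Fact c.Prime]
    (κ : Type) [Field κ] [Fintype κ] [CharP κ c] (hf : Fintype.card κ = c ^ f) {z : κ}
    (hz : IsPrimitiveRoot z N) {E : Type} [Field E] [CharZero E] [IsAlgClosed E] {μ : E}
    (hμ : IsPrimitiveRoot μ N) {ι : Type} [Fintype ι] (l : ι → Fin (2 * d + 1) → κ) (a : ι → ℕ)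
    (ha : ∀ i, (a i).Coprime N)
    (hj : ∀ χ, 0 < χ → χ < N → ∃ j, j.Coprime N ∧
      ∑ i, ∑ s ∈ range f, (j * χ * a i * c ^ s) % N < f * N * (d + 1))
    {G : Type} [Group G] {V : Type} [AddCommGroup V] [Module E V] [FiniteDimensional E V]
    (ρ : Representation E G V) (W : Fin (N - 1) → Submodule E V) (hW : DirectSum.IsInternal W)
    (hstab : ∀ χ g, ∀ v ∈ W χ, ρ g v ∈ W χ) (φ : G)
    (hφ : ∀ χ : Fin (N - 1), CoverTrace κ N d l a z μ (χ + 1) ((ρ φ).restrict (hstab χ φ))) :
    (∀ (L : Type) [Field L] [Fintype L] [Algebra κ L],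
      ((Fintype.card L : E) - 1) * LinearMap.trace E V ((ρ φ) ^ Module.finrank κ L)
        = (conePoints L N (2 * d + 1) (fun i k => algebraMap κ L (l i k)) a : E)
          - (Fintype.card L : E) ^ (2 * d + 1)) ∧
    ∀ (ε : G →* E), ε φ = (Fintype.card κ : E) ^ d → ∀ (H : Subgroup G), H.FiniteIndex → ∀ v : V,
      (∀ g ∈ H, ρ g v = ε g • v) → v = 0 := by
  classical
  refine ⟨fun L _ _ _ => trace_total hN κ hz hμ d l a ha (ρ φ) W hW (fun χ => hstab χ φ) hφ L, ?_⟩
  intro ε hε H hH v hv
  refine Pool.Agent.W528.HF.decomp ρ W hW hstab φ ((Fintype.card κ : E) ^ d) ?_ ε hε H hH v hv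
  intro χ M hM w hw
  obtain ⟨j, hjc, hjs⟩ := hj (χ + 1) (by omega) (by have := χ.2; omega)
  exact no_tate hN κ hf d l a hjc hjs hz hμ _ (hφ χ) M hM w hw

end Pool.Agent.TH366.HC
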